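import Pool.Agent.N993.RK.Stm

/-!
# RK/FLD: norm one generators of finite fields
-/

set_option autoImplicit false

namespace Pool.Agent.N31.RK

open Pool.Agent.N993.RK IntermediateField

theorem dvd_aux {n d : ℕ} (hn : 0 < n) (h : (5 ^ n + 1) ∣ 5 ^ d - 1) : 2 * n ∣ d := by
  have h1 : ((5 : ℤ) ^ n + 1) ∣ 5 ^ d - 1 := by
    have h0 := Int.natCast_dvd_natCast.2 h
    rw [Nat.cast_sub (Nat.one_le_pow _ _ (by norm_num))] at h0
    push_cast at h0
    exact h0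
  have h2 : ((5 : ℤ) ^ n + 1) ∣ 5 ^ (2 * n * (d / (2 * n))) - 1 := by
    have h3 : (5 : ℤ) ^ (2 * n) - 1 = (5 ^ n + 1) * (5 ^ n - 1) := by
      rw [two_mul, pow_add]; ring
    have h4 : (5 : ℤ) ^ (2 * n) - 1 ∣ (5 ^ (2 * n)) ^ (d / (2 * n)) - 1 := by
      simpa using sub_dvd_pow_sub_pow ((5 : ℤ) ^ (2 * n)) 1 (d / (2 * n))
    rw [pow_mul]
    exact (Dvd.intro _ h3.symm).trans h4
  obtain ⟨r, hr⟩ : ∃ r, r = d % (2 * n) := ⟨_, rfl⟩
  have hrlt : r < 2 * n := by rw [hr]; exact Nat.mod_lt _ (by omega)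
  have hd : d = 2 * n * (d / (2 * n)) + r := by rw [hr]; exact (Nat.div_add_mod d (2 * n)).symm
  have h4 : ((5 : ℤ) ^ n + 1) ∣ 5 ^ r - 1 := by
    have h5 : (5 : ℤ) ^ d - 1 = (5 ^ (2 * n * (d / (2 * n))) - 1) * 5 ^ r + (5 ^ r - 1) := by
      conv_lhs => rw [hd, pow_add]
      ring
    rw [h5] at h1
    exact (dvd_add_right (Dvd.dvd.mul_right h2 _)).1 h1
  rcases Nat.eq_zero_or_pos r with h0 | h0
  · exact Nat.dvd_of_mod_eq_zero (hr.symm.trans h0)
  exfalso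
  rcases Nat.lt_or_ge n r with h6 | h6
  · obtain ⟨s, hs⟩ : ∃ s, r = n + s := ⟨r - n, by omega⟩
    have h7 : (5 : ℤ) ^ r - 1 = (5 ^ n + 1) * 5 ^ s - (5 ^ s + 1) := by
      rw [hs, pow_add]; ring
    have h8 : ((5 : ℤ) ^ n + 1) ∣ 5 ^ s + 1 := by
      rw [h7] at h4
      exact (dvd_sub_right (Dvd.intro _ rfl)).1 h4
    have h9 := Int.le_of_dvd (by positivity) h8
    have h10 : (5 : ℤ) ^ s < 5 ^ n := pow_lt_pow_right₀ (by norm_num) (by omega)
    linarith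
  · have h11 : (1 : ℤ) < 5 ^ r := one_lt_pow₀ (by norm_num) (by omega)
    have h9 := Int.le_of_dvd (by linarith) h4
    have h10 : (5 : ℤ) ^ r ≤ 5 ^ n := pow_le_pow_right₀ (by norm_num) h6
    linarith

theorem mem_clos {u x : Om} (hx : x ∈ Algebra.adjoin (ZMod 5) {u}) :
    x ∈ AddSubgroup.closure (Set.range fun j : ℕ => u ^ j) := by
  rw [Algebra.adjoin_singleton_eq_range_aeval] at hx
  obtain ⟨p, rfl⟩ := hx
  change Polynomial.aeval u p ∈ _
  rw [Polynomial.aeval_eq_sum_range]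
  refine AddSubgroup.sum_mem _ fun i _ => ?_
  have h1 : p.coeff i • u ^ i = (p.coeff i).val • u ^ i := by
    rw [← Nat.cast_smul_eq_nsmul (ZMod 5), ZMod.natCast_zmod_val]
  rw [h1]
  have h2 : u ^ i ∈ AddSubgroup.closure (Set.range fun j : ℕ => u ^ j) :=
    AddSubgroup.subset_closure ⟨i, rfl⟩
  exact AddSubgroup.nsmul_mem _ h2 _

theorem t_FLD : S_FLD := by
  classical
  intro n hn
  have hN : NeZero ((5 ^ n + 1 : ℕ) : Om) := by
    constructor
    have h5 : ((5 : ℕ) : Om) = 0 := CharP.cast_eq_zero Om 5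
    rw [Nat.cast_add, Nat.cast_pow, h5, zero_pow hn.ne', zero_add, Nat.cast_one]
    exact one_ne_zero
  obtain ⟨u, hu⟩ := HasEnoughRootsOfUnity.exists_primitiveRoot Om (5 ^ n + 1)
  refine ⟨u, hu.pow_eq_one, fun x hx => ?_⟩
  have hint : IsIntegral (ZMod 5) u := Algebra.IsIntegral.isIntegral u
  have hfd : FiniteDimensional (ZMod 5) (ZMod 5)⟮u⟯ := adjoin.finiteDimensional hint
  have hfin : Finite (ZMod 5)⟮u⟯ := Module.finite_of_finite (ZMod 5)
  have hft : Fintype (ZMod 5)⟮u⟯ := Fintype.ofFinite _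
  obtain ⟨d, hd⟩ : ∃ d, Fintype.card (ZMod 5)⟮u⟯ = 5 ^ d := by
    refine ⟨Module.finrank (ZMod 5) (ZMod 5)⟮u⟯,
      (Module.card_eq_pow_finrank (K := ZMod 5) (V := (ZMod 5)⟮u⟯)).trans ?_⟩
    rw [ZMod.card]
  have hpow : ∀ y : (ZMod 5)⟮u⟯, y ^ (5 ^ d) = y := fun y => by
    rw [← hd]; exact FiniteField.pow_card y
  have h1d : 1 < 5 ^ d := by rw [← hd]; exact Fintype.one_lt_card
  have hu0 : u ≠ 0 := hu.ne_zero (by positivity)
  have hu1 : u ^ (5 ^ d) = u := by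
    have := congrArg (fun y : (ZMod 5)⟮u⟯ => (y : Om))
      (hpow ⟨u, mem_adjoin_simple_self (ZMod 5) u⟩)
    simpa using this
  have hu2 : u ^ (5 ^ d - 1) = 1 := by
    have h3 : u ^ (5 ^ d - 1) * u = 1 * u := by
      rw [← pow_succ, Nat.sub_add_cancel h1d.le, hu1, one_mul]
    exact mul_right_cancel₀ hu0 h3
  obtain ⟨e, he⟩ := dvd_aux hn (hu.dvd_of_pow_eq_one _ hu2)
  have hx1 : ∀ e : ℕ, x ^ (5 ^ (2 * n * e)) = x := by
    intro e
    induction e with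
    | zero => simp
    | succ e ih =>
      rw [Nat.mul_succ, pow_add, pow_mul, ih, hx]
  have hx2 : x ^ (5 ^ d) = x := by rw [he]; exact hx1 e
  have hP0 : (Polynomial.X ^ (5 ^ d) - Polynomial.X : Polynomial Om) ≠ 0 :=
    FiniteField.X_pow_card_sub_X_ne_zero Om h1d
  have hroot : ∀ y : Om, y ^ (5 ^ d) = y →
      y ∈ (Polynomial.X ^ (5 ^ d) - Polynomial.X : Polynomial Om).roots.toFinset := by
    intro y hy
    rw [Multiset.mem_toFinset, Polynomial.mem_roots hP0]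
    simp [Polynomial.IsRoot, hy]
  have hsub : (Finset.univ : Finset (ZMod 5)⟮u⟯).image (fun y : (ZMod 5)⟮u⟯ => (y : Om)) ⊆
      (Polynomial.X ^ (5 ^ d) - Polynomial.X : Polynomial Om).roots.toFinset := by
    intro y hy
    obtain ⟨z, -, rfl⟩ := Finset.mem_image.1 hy
    refine hroot _ ?_
    have := congrArg (fun y : (ZMod 5)⟮u⟯ => (y : Om)) (hpow z)
    simpa using this
  have hcard : (Polynomial.X ^ (5 ^ d) - Polynomial.X : Polynomial Om).roots.toFinset.card ≤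
      ((Finset.univ : Finset (ZMod 5)⟮u⟯).image (fun y : (ZMod 5)⟮u⟯ => (y : Om))).card := by
    rw [Finset.card_image_of_injective _ Subtype.val_injective, Finset.card_univ, hd]
    refine (Multiset.toFinset_card_le _).trans ((Polynomial.card_roots' _).trans ?_)
    rw [FiniteField.X_pow_card_sub_X_natDegree_eq Om h1d]
  have heq := Finset.eq_of_subset_of_card_le hsub hcard
  have hxm := hroot x hx2
  rw [← heq] at hxm
  obtain ⟨z, -, hz⟩ := Finset.mem_image.1 hxm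
  have hzm : (z : Om) ∈ (ZMod 5)⟮u⟯ := z.2
  rw [hz, ← mem_toSubalgebra, adjoin_simple_toSubalgebra_of_isAlgebraic hint.isAlgebraic] at hzm
  exact mem_clos hzm

end Pool.Agent.N31.RK
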